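import Pool.Agent.Helper175_Enc.Dual
import Pool.Agent.Helper175_Enc.Engine3

/-!
The intersection problem for code-closed permutation groups reduces to the computation of the
normaliser of one abelian group in a symmetric group of polynomial degree.
-/

set_option autoImplicit false

namespace Pool.Agent.Results.MP_e519cf_lc.IntersectClosed

open Equiv

/-- The group of all permutations `b` of `Fin n` such that every polynomial of degree at most `k` in
the entries of the permutation matrix, with coefficients in `ZMod q` for some `q` with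
`1 ≤ q ≤ N`, that vanishes on `G` also vanishes at `b`. Such a polynomial is written as the
function `b ↦ ∑ γ, c γ (b ∘ γ)`, the sum over all `k`-tuples `γ` of points. -/
def polyClosure (N k : ℕ) {n : ℕ} (G : Subgroup (Perm (Fin n))) : Subgroup (Perm (Fin n)) where
  carrier := {b | ∀ q, 1 ≤ q → q ≤ N → ∀ c : (Fin k → Fin n) → (Fin k → Fin n) → ZMod q,
    (∀ g ∈ G, ∑ γ, c γ (⇑g ∘ γ) = 0) → ∑ γ, c γ (⇑b ∘ γ) = 0}
  one_mem' := fun q _ _ c hc => hc 1 G.one_mem
  mul_mem' := by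
    intro a b ha hb
    exact (Helper175_Enc.mem_ccN_iff N k G (a * b)).mpr (Subgroup.mul_mem _
      ((Helper175_Enc.mem_ccN_iff N k G a).mp ha) ((Helper175_Enc.mem_ccN_iff N k G b).mp hb))
  inv_mem' := by
    intro a ha
    exact (Helper175_Enc.mem_ccN_iff N k G a⁻¹).mpr (Subgroup.inv_mem _
      ((Helper175_Enc.mem_ccN_iff N k G a).mp ha))

lemma polyClosure_eq (N k : ℕ) {n : ℕ} (G : Subgroup (Perm (Fin n))) :
    polyClosure N k G = Helper175_Enc.ccN N k G :=
  SetLike.ext (fun b => Helper175_Enc.mem_ccN_iff N k G b)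

open Helper175_Enc in
theorem result (k : ℕ) : ∃ C : ℕ, ∀ n N : ℕ, 1 ≤ n → 1 ≤ N →
    ∃ (X : Type) (_ : Fintype X) (O : Fin n → Set X) (α : Perm (Fin n) →* Perm X)
      (E : Finset (Perm X)) (κ₁ κ₂ : Fin N → Perm X),
      Fintype.card X ≤ C * (n + N) ^ C ∧ E.card ≤ C * (n + N) ^ C ∧
      (∀ x, (O x).Nonempty) ∧ (∀ x y, x ≠ y → Disjoint (O x) (O y)) ∧
      (∀ b x, α b '' O x = O (b x)) ∧
      (∀ b, α b ∈ Subgroup.normalizer (Subgroup.closure (E : Set (Perm X)) : Set (Perm X))) ∧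
      ∀ (G H : Subgroup (Perm (Fin n))) (K : Subgroup (Perm X)),
        K = Subgroup.closure ((E : Set (Perm X)) ∪
          {x | ∃ q, ∃ g ∈ G, x = α g * κ₁ q * (α g)⁻¹} ∪
          {x | ∃ q, ∃ h ∈ H, x = α h * κ₂ q * (α h)⁻¹}) →
        (∀ x ∈ K, ∀ y ∈ K, x * y = y * x) ∧ (∀ κ ∈ K, ∀ x, κ '' O x = O x) ∧
        (∀ π ∈ Subgroup.normalizer (K : Set (Perm X)),
          ∃ b ∈ polyClosure N k G ⊓ polyClosure N k H, ∀ x, π '' O x = O (b x)) ∧
        (∀ b ∈ polyClosure N k G ⊓ polyClosure N k H,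
          α b ∈ Subgroup.normalizer (K : Set (Perm X))) := by
  obtain ⟨C, hC⟩ := bound_poly k 4 (k + 2)
  refine ⟨C, fun n N hn hN => ?_⟩
  have : Nonempty (Fin n) := ⟨⟨0, hn⟩⟩
  have : Nonempty (Fin N) := ⟨⟨0, hN⟩⟩
  have : Nonempty (ZN N) := ⟨⟨⟨0, hN⟩, 0⟩⟩
  obtain ⟨X, fX, hX, O, α, E, iS, ξ, hE, hO1, hO2, hO3, hα, -, hK⟩ :=
    engine3 (Fin n) ((Fin N × (Fin k → Fin n)) ⊕ (Fin N × (Fin k → Fin n))) (Fin k) (ZN N)
      (Option (Fin N)) (vN N)
  have hs : 1 ≤ n + N := by omega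
  have hNs : N ≤ n + N := by omega
  have hpow : (n + N) ^ (k + 2) = (n + N) ^ k * ((n + N) * (n + N)) := by ring
  have hl : Fintype.card ((Fin N × (Fin k → Fin n)) ⊕ (Fin N × (Fin k → Fin n))) *
      Fintype.card (Option (Fin N)) ≤ 4 * (n + N) ^ (k + 2) := by
    rw [Fintype.card_sum, Fintype.card_prod, Fintype.card_fun, Fintype.card_fin, Fintype.card_fin,
      Fintype.card_option, Fintype.card_fin, Fintype.card_fin]
    have h1 : n ^ k ≤ (n + N) ^ k := Nat.pow_le_pow_left (by omega) k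
    calc (N * n ^ k + N * n ^ k) * (N + 1)
        ≤ ((n + N) * (n + N) ^ k + (n + N) * (n + N) ^ k) * (2 * (n + N)) := by
          gcongr
          omega
      _ = 4 * (n + N) ^ (k + 2) := by ring
  have hz : Fintype.card (ZN N) ≤ 4 * (n + N) ^ (k + 2) := by
    rw [← Nat.card_eq_fintype_card]
    have h1 : 1 ≤ (n + N) ^ k := Nat.one_le_pow _ _ hs
    calc Nat.card (ZN N) ≤ N * N := card_ZN N
      _ ≤ (n + N) * (n + N) := by gcongr
      _ = 1 * ((n + N) * (n + N)) := (one_mul _).symm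
      _ ≤ (n + N) ^ k * ((n + N) * (n + N)) := by gcongr
      _ = (n + N) ^ (k + 2) := hpow.symm
      _ ≤ 4 * (n + N) ^ (k + 2) := by omega
  rw [Fintype.card_fin, Fintype.card_fin] at hX hE
  obtain ⟨hb1, hb2⟩ := hC n _ _ (n + N) hs (by omega) hl hz
  have hset : ∀ (G : Subgroup (Perm (Fin n)))
      (f : (IS (Fin n) (Fin N × (Fin k → Fin n)) (Fin k) → Perm (ZN N)) →
        IS (Fin n) ((Fin N × (Fin k → Fin n)) ⊕ (Fin N × (Fin k → Fin n))) (Fin k) →
          Perm (ZN N)),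
      (∀ b r, pull b (f r) = f (pull b r)) →
      {x | ∃ q, ∃ g ∈ G, x = α g * iS (f (fG N (Fin k) q 1)) * (α g)⁻¹} =
        iS '' (f '' {t | ∃ q : Fin N, ∃ g ∈ G, t = fG N (Fin k) q g}) := by
    intro G f hf
    have h1 := conj_family α iS hα (MonoidHom.id (Perm (Fin n)))
      (fun (q : Fin N) g => f (fG N (Fin k) q g)) (fun q g b => by
        rw [hf]
        change f (pull b (fG N (Fin k) q g)) = _
        rw [pull_fG]) G
    simp only [MonoidHom.id_apply] at h1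
    rw [h1]
    congr 1
    ext t
    constructor
    · rintro ⟨q, g, hg, rfl⟩
      exact ⟨_, ⟨q, g, hg, rfl⟩, rfl⟩
    · rintro ⟨_, ⟨q, g, hg, rfl⟩, rfl⟩
      exact ⟨q, g, hg, rfl⟩
  refine ⟨X, fX, O, α, E, fun q => iS (inLm (fG N (Fin k) q 1)),
    fun q => iS (inRm (fG N (Fin k) q 1)), hX.trans hb1, hE.trans hb2, hO1, hO2, hO3, ?_, ?_⟩
  · intro b
    refine (hK ∅ (Subgroup.closure E) (by simp) (by simp)).2.1 b ?_
    intro r
    rw [Subgroup.closure_empty, SetLike.mem_coe, SetLike.mem_coe, Subgroup.mem_bot,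
      Subgroup.mem_bot]
    constructor
    · rintro rfl; rfl
    · intro h
      exact pull_inj b (h.trans (by rfl))
  · intro G H K hKdef
    rw [hset G inLm pull_inLm, hset H inRm pull_inRm, Set.union_assoc, ← Set.image_union] at hKdef
    obtain ⟨h1, h2, h3⟩ := hK (inLm '' {t | ∃ q : Fin N, ∃ g ∈ G, t = fG N (Fin k) q g} ∪
      inRm '' {t | ∃ q : Fin N, ∃ g ∈ H, t = fG N (Fin k) q g}) K (by
        rintro s (⟨_, ⟨q, g, -, rfl⟩, rfl⟩ | ⟨_, ⟨q, g, -, rfl⟩, rfl⟩)
        · exact inLm_val (vN N) none rfl (fG_val N q g)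
        · exact inRm_val (vN N) none rfl (fG_val N q g)) hKdef
    have hstab : ∀ b : Perm (Fin n), b ∈ StabOf ((Subgroup.closure
        (inLm '' {t | ∃ q : Fin N, ∃ g ∈ G, t = fG N (Fin k) q g} ∪
          inRm '' {t | ∃ q : Fin N, ∃ g ∈ H, t = fG N (Fin k) q g}) : Subgroup _) :
        Set (IS (Fin n) ((Fin N × (Fin k → Fin n)) ⊕ (Fin N × (Fin k → Fin n))) (Fin k) →
          Perm (ZN N))) ↔ b ∈ polyClosure N k G ⊓ polyClosure N k H := by
      intro b
      rw [stab_union, stab_fG, stab_fG, polyClosure_eq, polyClosure_eq]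
      exact Iff.rfl
    refine ⟨h3.1 (vN_comm N), h3.2, ?_, ?_⟩
    · intro π hπ
      obtain ⟨b, hb, hbO⟩ := h1 π hπ
      exact ⟨b, (hstab b).mp hb, hbO⟩
    · intro b hb
      exact h2 b ((hstab b).mpr hb)

end Pool.Agent.Results.MP_e519cf_lc.IntersectClosed
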