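import Pool.Agent.Helper175_Flex.TiePack
import Pool.Agent.Helper175_Flex.Family

/-!
Groups induced by normalisers on families of blocks: products with groups of small components,
intersections and, more generally, groups described by a family of local pieces are again induced
by one normaliser in a symmetric group of polynomial degree.
-/

set_option autoImplicit false

namespace Pool.Agent.Results.MP_e519cf_lc.LocalProduct

open Equiv

/-- The permutations of the indices of a family of blocks that are induced by elements of the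
normaliser of `K` in the symmetric group. -/
def induced {n : ℕ} {X : Type} (O : Fin n → Set X) (K : Subgroup (Perm X)) :
    Set (Perm (Fin n)) :=
  {b | ∃ π ∈ Subgroup.normalizer (K : Set (Perm X)), ∀ x, π '' O x = O (b x)}

lemma closure_aux {G H : Type*} [Group G] [Group H] (A : Set G) (j : H →* G) (B : Set H) :
    Subgroup.closure (A ∪ j '' (Subgroup.closure B : Set H)) = Subgroup.closure (A ∪ j '' B) := by
  rw [Subgroup.closure_union, Subgroup.closure_union]
  congr 1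
  have h1 : (j '' (Subgroup.closure B : Set H)) = ((Subgroup.closure B).map j : Set G) := rfl
  rw [h1, Subgroup.closure_eq, MonoidHom.map_closure]

lemma set_aux {A₁ A₂ B T ι : Type*} {Y : ι → Type*} (a : Set B) (f : A₁ → B) (g : A₂ → B)
    (d : Set A₁) (h : Set A₂) (r : T → A₁) (k : ∀ t, Y t → A₂) (S : ∀ t, Set (Y t)) :
    (a ∪ f '' d ∪ g '' h) ∪ (⋃ t, (fun y => g (k t y)) '' S t) ∪ Set.range (fun t => f (r t)) =
    a ∪ g '' (h ∪ ⋃ t, k t '' S t) ∪ f '' (d ∪ Set.range r) := by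
  rw [Set.image_union, Set.image_union, Set.image_iUnion, ← Set.range_comp]
  simp only [Set.image_image, Function.comp_def]
  ext x
  simp only [Set.mem_union]
  tauto

theorem result : ∃ C : ℕ, ∀ n m e r : ℕ, 1 ≤ n → 1 ≤ m → 1 ≤ e → 1 ≤ r →
    ∀ (A : Fin r → Type) [∀ t, Fintype (A t)] [∀ t, Nonempty (A t)]
      (O₁ : ∀ t, Fin n ⊕ Fin n → Set (A t)) (col : Fin r → ℕ) (V : Subgroup (Perm (Fin n))),
    (∀ t, Fintype.card (A t) ≤ m) → (∀ t, col t ≤ m) →
    (∀ t x y, x ≠ y → Disjoint (O₁ t x) (O₁ t y)) →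
    (∀ x, Nat.card (Set.range
      (fun (v : V) (y : MulAction.orbit V x) => (v : Perm (Fin n)) y.1)) ≤ e) →
    ∃ (X : Type) (_ : Fintype X) (O : Fin n → Set X) (E : Finset (Perm X))
      (j : ∀ t, Perm (A t) →* Perm X) (ν : V →* Perm X),
      Fintype.card X ≤ C * (n + m + e + r) ^ C ∧ E.card ≤ C * (n + m + e + r) ^ C ∧
      (∀ x, (O x).Nonempty) ∧ (∀ x y, x ≠ y → Disjoint (O x) (O y)) ∧
      ∀ (K₁ : ∀ t, Subgroup (Perm (A t))) (K : Subgroup (Perm X)),
        (∀ t, ∀ κ ∈ K₁ t, ∀ x, κ '' O₁ t x = O₁ t x) →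
        K = Subgroup.closure ((E : Set (Perm X)) ∪ (⋃ t, j t '' (K₁ t : Set (Perm (A t)))) ∪
          Set.range ν) →
        (∀ κ ∈ K, ∀ x, κ '' O x = O x) ∧
        (∀ π ∈ Subgroup.normalizer (K : Set (Perm X)), ∃ b : Perm (Fin n),
          ∀ x, π '' O x = O (b x)) ∧
        induced O K = {b | ∃ a ∈ Subgroup.normalizer (V : Set (Perm (Fin n))), b * a⁻¹ ∈ V ∧
          ∃ β : Perm (Fin r), (∀ t, col (β t) = col t) ∧
            ∀ t, ∃ σ : A t ≃ A (β t), (∀ κ, κ ∈ K₁ t ↔ σ.permCongr κ ∈ K₁ (β t)) ∧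
              ∀ x, σ '' O₁ t x = O₁ (β t) (Equiv.sumCongr b a x)} := by
  classical
  obtain ⟨C₁, hC₁⟩ := Helper175_Flex.fbd_poly 3 10 5
  obtain ⟨C₂, hC₂⟩ := Helper175_Flex.fbd_poly 2 12 2
  obtain ⟨C₃, hC₃⟩ := Helper175_Flex.fbd_poly 2 (C₁ + C₂ + 11) (C₁ + C₂ + 11)
  refine ⟨C₃ + 40, fun n m e r hn hm he hr A _ _ O₁ col V hA hcol hO₁ hV => ?_⟩
  set s := n + m + e + r with hs
  have hs1 : 1 ≤ s := by omega
  have hne : Nonempty (Fin r) := ⟨⟨0, hr⟩⟩
  -- the pairs of permutations that differ by an element of the group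
  obtain ⟨XT, fXT, hXT, hneT, OT, ET, νT, hET, hOT, hKT⟩ :=
    Helper175_Flex.tie n e hn he V hV
  -- the family
  obtain ⟨XB, fXB, hXB, OB, EB, jB, hEB, hOB, hOB', hKB⟩ :=
    Helper175_Flex.family (Fin n ⊕ Fin n) (Fin r) A O₁ hO₁ col
  have hneB : Nonempty XB := ⟨(hOB (Sum.inl ⟨0, hn⟩)).some⟩
  obtain ⟨X, fX, hX, O, EC, JT, JB, hEC, hO, hO', hK⟩ :=
    Helper175_Flex.meet (Fin n ⊕ Fin n) XT XB OT OB hOT hOB'
  have hcP : Fintype.card (Fin n ⊕ Fin n) = n + n := by
    rw [Fintype.card_sum, Fintype.card_fin]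
  rw [hcP, Fintype.card_fin] at hEB
  rw [hcP] at hXB hX hEC
  have hle : n + e ≤ s := by omega
  have hss : s ≤ s ^ 2 := Nat.le_self_pow (by norm_num) s
  have hT : Fintype.card XT ≤ C₁ * s ^ C₁ := by
    refine hXT.trans (hC₁ _ _ s hs1 ?_ ?_)
    · calc 2 * (n + e) ^ 5 ≤ 2 * s ^ 5 := by gcongr
        _ ≤ 10 * s ^ 5 := by omega
    · calc 10 * (n + e) ^ 2 ≤ 10 * s ^ 2 := by gcongr
        _ ≤ 10 * s ^ 5 := by
          gcongr
          norm_num
  have hsumA : ∑ t, Fintype.card (A t) ≤ r * m := by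
    calc ∑ t, Fintype.card (A t) ≤ ∑ _t : Fin r, m := Finset.sum_le_sum (fun t _ => hA t)
      _ = r * m := by rw [Finset.sum_const, Finset.card_univ, Fintype.card_fin, smul_eq_mul]
  have hsumc : ∑ t, (col t + 3) ≤ r * (m + 3) := by
    calc ∑ t, (col t + 3) ≤ ∑ _t : Fin r, (m + 3) := by
          refine Finset.sum_le_sum (fun t _ => ?_)
          have h2 := hcol t
          omega
      _ = r * (m + 3) := by
          rw [Finset.sum_const, Finset.card_univ, Fintype.card_fin, smul_eq_mul]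
  have hrm : r * m ≤ s ^ 2 := by
    rw [sq]
    exact Nat.mul_le_mul (by omega) (by omega)
  have hrs : r ≤ s := by omega
  have hB : Fintype.card XB ≤ C₂ * s ^ C₂ := by
    refine hXB.trans (hC₂ _ _ s hs1 ?_ ?_)
    · omega
    · have h1 : r * (m + 3) = r * m + 3 * r := by ring
      omega
  have hpow : ∀ a b : ℕ, a ≤ b → a * s ^ a ≤ b * s ^ b := fun a b h =>
    Nat.mul_le_mul h (Nat.pow_le_pow_right hs1 h)
  have hXfin : Fintype.card X ≤ C₃ * s ^ C₃ := by
    refine hX.trans (hC₃ _ _ s hs1 ?_ ?_)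
    · have h1 : C₁ * s ^ C₁ ≤ C₁ * s ^ (C₁ + C₂ + 11) := by
        gcongr
        omega
      have h2 : C₂ * s ^ C₂ ≤ C₂ * s ^ (C₁ + C₂ + 11) := by
        gcongr
        omega
      calc Fintype.card XT + Fintype.card XB
          ≤ C₁ * s ^ (C₁ + C₂ + 11) + C₂ * s ^ (C₁ + C₂ + 11) := by omega
        _ ≤ (C₁ + C₂ + 11) * s ^ (C₁ + C₂ + 11) := by
            rw [← add_mul]
            exact Nat.mul_le_mul_right _ (by omega)
    · calc n + n + 9 ≤ 11 * s ^ 1 := by rw [pow_one]; omega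
        _ ≤ (C₁ + C₂ + 11) * s ^ (C₁ + C₂ + 11) := by
            gcongr
            · omega
            · omega
  -- the generating set
  let E : Finset (Perm X) := EC ∪ ET.image JT ∪ EB.image JB
  refine ⟨X, fX, fun x => O (Sum.inl x), E, fun t => JB.comp (jB t), JT.comp νT, ?_, ?_,
    fun x => hO _, fun x y hxy => hO' _ _ (fun h => hxy (Sum.inl_injective h)), ?_⟩
  · exact hXfin.trans (hpow _ _ (by omega))
  · have h1 : E.card ≤ EC.card + ET.card + EB.card := by
      refine (Finset.card_union_le _ _).trans (Nat.add_le_add ?_ Finset.card_image_le)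
      exact (Finset.card_union_le _ _).trans (Nat.add_le_add_left Finset.card_image_le _)
    have h2 : 12 * (n + e) ^ 2 ≤ 12 * s ^ 2 := by gcongr
    calc E.card ≤ 40 * s ^ 2 := by omega
      _ ≤ (C₃ + 40) * s ^ (C₃ + 40) := by
          gcongr
          · omega
          · omega
  intro K₁ K hK₁ hKdef
  set KT : Subgroup (Perm XT) := Subgroup.closure ((ET : Set (Perm XT)) ∪ Set.range νT) with hKTd
  set KB : Subgroup (Perm XB) := Subgroup.closure ((EB : Set (Perm XB)) ∪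
    ⋃ t, jB t '' (K₁ t : Set (Perm (A t)))) with hKBd
  obtain ⟨hT1, hT2, hT3⟩ := hKT KT rfl
  obtain ⟨hB1, hB2, hB3⟩ := hKB K₁ KB hK₁ rfl
  have hKdef2 : K = Subgroup.closure ((EC : Set (Perm X)) ∪ JT '' (KT : Set (Perm XT)) ∪
      JB '' (KB : Set (Perm XB))) := by
    rw [hKTd, hKBd, closure_aux, Set.union_right_comm, closure_aux, hKdef]
    congr 1
    have h1 : (E : Set (Perm X)) = (EC : Set (Perm X)) ∪ JT '' (ET : Set (Perm XT)) ∪
        JB '' (EB : Set (Perm XB)) := by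
      simp only [E, Finset.coe_union, Finset.coe_image]
    rw [h1]
    exact set_aux _ JT JB _ _ νT (fun t => jB t) _
  obtain ⟨h1, h2, h3⟩ := hK KT KB K hT1 hB1 hKdef2
  -- distinct indices have distinct blocks
  have hinj : ∀ x y, O x = O y → x = y := by
    intro x y hxy
    by_contra hne
    have h6 := hO' x y hne
    rw [hxy] at h6
    exact (hO y).ne_empty (disjoint_self.mp h6)
  have hinjB : ∀ x y, OB x = OB y → x = y := by
    intro x y hxy
    by_contra hne
    have h6 := hOB' x y hne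
    rw [hxy] at h6
    exact (hOB y).ne_empty (disjoint_self.mp h6)
  -- analysis of the permutations induced by the normaliser
  have hind : ∀ b : Perm (Fin n ⊕ Fin n), b ∈ Helper175_Flex.Ind OB KB →
      b ∈ Helper175_Flex.Fam O₁ col K₁ := by
    rintro b ⟨π, hπ, hb⟩
    obtain ⟨b', hb', hb''⟩ := hB2 π hπ
    have h4 : b = b' := by
      ext x : 1
      apply hinjB
      rw [← hb, hb'']
    rw [h4]
    exact hb'
  have hmain : ∀ π ∈ Subgroup.normalizer (K : Set (Perm X)), ∃ a₀ a₁ : Perm (Fin n),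
      a₁ ∈ Subgroup.normalizer (V : Set (Perm (Fin n))) ∧ a₀ * a₁⁻¹ ∈ V ∧
      Equiv.sumCongr a₀ a₁ ∈ Helper175_Flex.Fam O₁ col K₁ ∧
      ∀ x, π '' O (Sum.inl x) = O (Sum.inl (a₀ x)) := by
    intro π hπ
    obtain ⟨b, ⟨hbT, hbB⟩, hbO⟩ := h2 π hπ
    obtain ⟨a₀, a₁, ha, hu, h4, h5⟩ := hT2 b hbT
    have h6 : b = Equiv.sumCongr a₀ a₁ := by
      ext x : 1
      rcases x with x | x
      · exact h4 x
      · exact h5 x
    refine ⟨a₀, a₁, ha, hu, ?_, fun x => ?_⟩
    · rw [← h6]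
      exact hind b hbB
    · rw [hbO, h4]
  refine ⟨fun κ hκ x => h1 κ hκ _, ?_, ?_⟩
  · intro π hπ
    obtain ⟨a₀, a₁, -, -, -, h⟩ := hmain π hπ
    exact ⟨a₀, h⟩
  · ext b
    constructor
    · rintro ⟨π, hπ, hb⟩
      obtain ⟨a₀, a₁, ha, hu, h4, h6⟩ := hmain π hπ
      have h7 : b = a₀ := by
        ext x : 1
        have h8 : O (Sum.inl (b x)) = O (Sum.inl (a₀ x)) := (hb x).symm.trans (h6 x)
        exact Sum.inl_injective (hinj _ _ h8)
      rw [h7]
      exact ⟨a₁, ha, hu, h4⟩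
    · rintro ⟨a, ha, hu, hl⟩
      have h4 := hT3 b a ha hu
      have h5 : Equiv.sumCongr b a ∈ Helper175_Flex.Ind OB KB := hB3 _ hl
      obtain ⟨π, hπ, hπO⟩ := h3 _ ⟨h4, h5⟩
      exact ⟨π, hπ, fun x => hπO _⟩

end Pool.Agent.Results.MP_e519cf_lc.LocalProduct
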