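import Pool.Agent.Helper175_Enc.Dual
import Pool.Agent.Helper175_Enc.Engine3

/-!
The general normaliser problem for code-closed permutation groups reduces to the computation of
the normaliser of one abelian group in a symmetric group of polynomial degree.
-/

set_option autoImplicit false

namespace Pool.Agent.Results.MP_e519cf_lc.NormaliserClosed

open Equiv

/-- The group of all permutations `b` of `Fin n` such that every polynomial of degree at most `k` in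
the entries of the permutation matrix, with coefficients in `ZMod q` for some `q` with
`1 ≤ q ≤ N`, that vanishes on `G` also vanishes at `b`. Such a polynomial is written as the
function `b ↦ ∑ γ, c γ (b ∘ γ)`, the sum over all `k`-tuples `γ` of points. -/
def polyClosure (N k : ℕ) {n : ℕ} (G : Subgroup (Perm (Fin n))) : Subgroup (Perm (Fin n)) where
  carrier := {b | ∀ q, 1 ≤ q → q ≤ N → ∀ c : (Fin k → Fin n) → (Fin k → Fin n) → ZMod q,
    (∀ g ∈ G, ∑ γ, c γ (⇑g ∘ γ) = 0) → ∑ γ, c γ (⇑b ∘ γ) = 0}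
  one_mem' := fun q _ _ c hc => hc 1 G.one_mem
  mul_mem' := by
    intro a b ha hb
    exact (Helper175_Enc.mem_ccN_iff N k G (a * b)).mpr (Subgroup.mul_mem _
      ((Helper175_Enc.mem_ccN_iff N k G a).mp ha) ((Helper175_Enc.mem_ccN_iff N k G b).mp hb))
  inv_mem' := by
    intro a ha
    exact (Helper175_Enc.mem_ccN_iff N k G a⁻¹).mpr (Subgroup.inv_mem _
      ((Helper175_Enc.mem_ccN_iff N k G a).mp ha))

lemma polyClosure_eq (N k : ℕ) {n : ℕ} (G : Subgroup (Perm (Fin n))) :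
    polyClosure N k G = Helper175_Enc.ccN N k G :=
  SetLike.ext (fun b => Helper175_Enc.mem_ccN_iff N k G b)

open Helper175_Enc in
theorem result (k : ℕ) : ∃ C : ℕ, ∀ n N : ℕ, 1 ≤ n → 1 ≤ N →
    ∃ (X : Type) (_ : Fintype X) (O : Fin n → Set X) (α σ : Perm (Fin n) →* Perm X)
      (E : Finset (Perm X)) (κ₁ κ₂ : Fin N → Perm X),
      Fintype.card X ≤ C * (n + N) ^ C ∧ E.card ≤ C * (n + N) ^ C ∧
      (∀ x, (O x).Nonempty) ∧ (∀ x y, x ≠ y → Disjoint (O x) (O y)) ∧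
      (∀ b x, α b '' O x = O (b x)) ∧
      ∀ (G H : Subgroup (Perm (Fin n))) (K : Subgroup (Perm X)),
        K = Subgroup.closure ((E : Set (Perm X)) ∪
          {x | ∃ q, ∃ g ∈ G, x = σ g * κ₁ q * (σ g)⁻¹} ∪
          {x | ∃ q, ∃ h ∈ H, x = α h * κ₂ q * (α h)⁻¹}) →
        (∀ x ∈ K, ∀ y ∈ K, x * y = y * x) ∧ (∀ κ ∈ K, ∀ x, κ '' O x = O x) ∧
        (∀ π ∈ Subgroup.normalizer (K : Set (Perm X)),
          ∃ b ∈ Subgroup.normalizer (polyClosure N k G : Set (Perm (Fin n))) ⊓ polyClosure N k H,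
            ∀ x, π '' O x = O (b x)) ∧
        (∀ b ∈ Subgroup.normalizer (polyClosure N k G : Set (Perm (Fin n))) ⊓ polyClosure N k H,
          α b ∈ Subgroup.normalizer (K : Set (Perm X))) := by
  obtain ⟨C, hC⟩ := bound_poly (k + k) 4 (k + 2)
  refine ⟨C, fun n N hn hN => ?_⟩
  have : Nonempty (Fin n) := ⟨⟨0, hn⟩⟩
  have : Nonempty (Fin N) := ⟨⟨0, hN⟩⟩
  have : Nonempty (ZN N) := ⟨⟨⟨0, hN⟩, 0⟩⟩
  obtain ⟨X, fX, hX, O, α, E, iS, ξ, hE, hO1, hO2, hO3, hα, hξ, hK⟩ :=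
    engine3 (Fin n) ((Fin N × Unit) ⊕ (Fin N × (Fin k → Fin n))) (Fin k ⊕ Fin k) (ZN N)
      (Option (Fin N)) (vN N)
  have hs : 1 ≤ n + N := by omega
  have hNs : N ≤ n + N := by omega
  have hpow : (n + N) ^ (k + 2) = (n + N) ^ k * ((n + N) * (n + N)) := by ring
  have h1k : 1 ≤ (n + N) ^ k := Nat.one_le_pow _ _ hs
  have hl : Fintype.card ((Fin N × Unit) ⊕ (Fin N × (Fin k → Fin n))) *
      Fintype.card (Option (Fin N)) ≤ 4 * (n + N) ^ (k + 2) := by
    rw [Fintype.card_sum, Fintype.card_prod, Fintype.card_prod, Fintype.card_fun, Fintype.card_fin,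
      Fintype.card_fin, Fintype.card_option, Fintype.card_fin, Fintype.card_fin, Fintype.card_unit]
    have h1 : n ^ k ≤ (n + N) ^ k := Nat.pow_le_pow_left (by omega) k
    calc (N * 1 + N * n ^ k) * (N + 1)
        ≤ ((n + N) * (n + N) ^ k + (n + N) * (n + N) ^ k) * (2 * (n + N)) := by
          gcongr
          omega
      _ = 4 * (n + N) ^ (k + 2) := by ring
  have hz : Fintype.card (ZN N) ≤ 4 * (n + N) ^ (k + 2) := by
    rw [← Nat.card_eq_fintype_card]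
    calc Nat.card (ZN N) ≤ N * N := card_ZN N
      _ ≤ (n + N) * (n + N) := by gcongr
      _ = 1 * ((n + N) * (n + N)) := (one_mul _).symm
      _ ≤ (n + N) ^ k * ((n + N) * (n + N)) := by gcongr
      _ = (n + N) ^ (k + 2) := hpow.symm
      _ ≤ 4 * (n + N) ^ (k + 2) := by omega
  have hJ : Fintype.card (Fin k ⊕ Fin k) = k + k := by
    rw [Fintype.card_sum, Fintype.card_fin]
  rw [Fintype.card_fin, hJ] at hX hE
  obtain ⟨hb1, hb2⟩ := hC n _ _ (n + N) hs (by omega) hl hz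
  -- the part of the tuple used by the second group
  let φ : (Fin k ⊕ Fin k → Fin n) → Option (Fin k → Fin n) := fun ε => some (ε ∘ Sum.inl)
  have hφ : ∀ γ, ∃ ε, φ ε = some γ := fun γ => ⟨pr γ γ, rfl⟩
  have hφb : ∀ (b : Perm (Fin n)) (ε : Fin k ⊕ Fin k → Fin n),
      φ (⇑b ∘ ε) = (φ ε).map (fun γ => ⇑b ∘ γ) := fun b ε => rfl
  refine ⟨X, fX, O, α, ξ.comp (act1 _ (Fin k)), E, fun q => iS (inLm (nG N (Fin k) q 1)),
    fun q => iS (inRm (extf φ (fG N (Fin k) q 1))), hX.trans hb1, hE.trans hb2, hO1, hO2, hO3, ?_⟩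
  intro G H K hKdef
  have hset1 : {x | ∃ q, ∃ g ∈ G, x = (ξ.comp (act1 _ (Fin k))) g *
      iS (inLm (nG N (Fin k) q 1)) * ((ξ.comp (act1 _ (Fin k))) g)⁻¹} =
      iS '' (inLm '' {t | ∃ q : Fin N, ∃ g ∈ G, t = nG N (Fin k) q g}) := by
    have hcj : ∀ (q : Fin N) (g : Perm (Fin n)),
        (ξ.comp (act1 ((Fin N × Unit) ⊕ (Fin N × (Fin k → Fin n))) (Fin k))) g *
        iS (inLm (nG N (Fin k) q 1)) *
        ((ξ.comp (act1 ((Fin N × Unit) ⊕ (Fin N × (Fin k → Fin n))) (Fin k))) g)⁻¹ =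
          iS (inLm (nG N (Fin k) q g⁻¹)) := by
      intro q g
      rw [MonoidHom.comp_apply, hξ]
      congr 1
      funext i
      rcases i with ⟨ε, l | l⟩ <;> rfl
    ext x
    constructor
    · rintro ⟨q, g, hg, rfl⟩
      exact ⟨_, ⟨_, ⟨q, g⁻¹, G.inv_mem hg, rfl⟩, rfl⟩, (hcj q g).symm⟩
    · rintro ⟨_, ⟨_, ⟨q, g, hg, rfl⟩, rfl⟩, rfl⟩
      refine ⟨q, g⁻¹, G.inv_mem hg, ?_⟩
      rw [hcj, inv_inv]
  have hset2 : {x | ∃ q, ∃ h ∈ H, x = α h * iS (inRm (extf φ (fG N (Fin k) q 1))) * (α h)⁻¹} =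
      iS '' (inRm (Λ₁ := Fin N × Unit) ''
        (extf φ '' {t | ∃ q : Fin N, ∃ g ∈ H, t = fG N (Fin k) q g})) := by
    have h1 := conj_family α iS hα (MonoidHom.id (Perm (Fin n)))
      (fun (q : Fin N) g => inRm (extf φ (fG N (Fin k) q g))) (fun q g b => by
        rw [pull_inRm]
        change inRm (pull b (extf φ (fG N (Fin k) q g))) = _
        rw [extf_pull (hφb b), pull_fG]) H
    simp only [MonoidHom.id_apply] at h1
    rw [h1]
    congr 1
    ext t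
    constructor
    · rintro ⟨q, g, hg, rfl⟩
      exact ⟨_, ⟨_, ⟨q, g, hg, rfl⟩, rfl⟩, rfl⟩
    · rintro ⟨_, ⟨_, ⟨q, g, hg, rfl⟩, rfl⟩, rfl⟩
      exact ⟨q, g, hg, rfl⟩
  rw [hset1, hset2, Set.union_assoc, ← Set.image_union] at hKdef
  obtain ⟨h1, h2, h3⟩ := hK (inLm '' {t | ∃ q : Fin N, ∃ g ∈ G, t = nG N (Fin k) q g} ∪
    inRm '' (extf φ '' {t | ∃ q : Fin N, ∃ g ∈ H, t = fG N (Fin k) q g})) K (by
      rintro s (⟨_, ⟨q, g, -, rfl⟩, rfl⟩ | ⟨_, ⟨_, ⟨q, g, -, rfl⟩, rfl⟩, rfl⟩)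
      · exact inLm_val (vN N) none rfl (nG_val N q g)
      · exact inRm_val (vN N) none rfl (extf_val (vN N) none rfl φ (fG_val N q g))) hKdef
  have hstab : ∀ b : Perm (Fin n), b ∈ StabOf ((Subgroup.closure
      (inLm '' {t | ∃ q : Fin N, ∃ g ∈ G, t = nG N (Fin k) q g} ∪
        inRm '' (extf φ '' {t | ∃ q : Fin N, ∃ g ∈ H, t = fG N (Fin k) q g})) : Subgroup _) :
      Set (IS (Fin n) ((Fin N × Unit) ⊕ (Fin N × (Fin k → Fin n))) (Fin k ⊕ Fin k) →
        Perm (ZN N))) ↔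
      b ∈ Subgroup.normalizer (polyClosure N k G : Set (Perm (Fin n))) ⊓ polyClosure N k H := by
    intro b
    rw [stab_union, stab_nG, stab_extf hφ (hφb b), stab_fG, polyClosure_eq, polyClosure_eq]
    exact Iff.rfl
  refine ⟨h3.1 (vN_comm N), h3.2, ?_, ?_⟩
  · intro π hπ
    obtain ⟨b, hb, hbO⟩ := h1 π hπ
    exact ⟨b, (hstab b).mp hb, hbO⟩
  · intro b hb
    exact h2 b ((hstab b).mpr hb)

end Pool.Agent.Results.MP_e519cf_lc.NormaliserClosed
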