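import Pool.Agent.Helper175_Flex.TiePack
import Pool.Agent.Helper175_Flex.Pair

/-!
The general normaliser problem `N_H(G)` for an arbitrary group `G` inside a group `H` that is
induced by the normaliser of a permutation group on a family of blocks reduces to the computation
of one normaliser in a symmetric group of polynomial degree.
-/

set_option autoImplicit false

namespace Pool.Agent.Results.MP_e519cf_lc.NormaliserInduced

open Equiv

/-- The permutations of the indices of a family of blocks that are induced by elements of the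
normaliser of `K` in the symmetric group. -/
def induced {n : ℕ} {X : Type} (O : Fin n → Set X) (K : Subgroup (Perm X)) :
    Set (Perm (Fin n)) :=
  {b | ∃ π ∈ Subgroup.normalizer (K : Set (Perm X)), ∀ x, π '' O x = O (b x)}

lemma blocks_inj {n : ℕ} {X : Type} {O : Fin n → Set X} (hO : ∀ x, (O x).Nonempty)
    (hO' : ∀ x y, x ≠ y → Disjoint (O x) (O y)) {b c : Perm (Fin n)}
    (h : ∀ x, O (b x) = O (c x)) : b = c := by
  ext x : 1
  by_contra hne
  have h6 := hO' _ _ hne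
  rw [h] at h6
  exact (hO _).ne_empty (disjoint_self.mp h6)

lemma comp_blocks {n : ℕ} {X : Type} {O : Fin n → Set X} {σ τ : Perm X} {b c : Perm (Fin n)}
    (h : ∀ x, σ '' O x = O (b x)) (h' : ∀ x, τ '' O x = O (c x)) (x : Fin n) :
    (σ * τ) '' O x = O ((b * c) x) := by
  rw [Perm.mul_apply, ← h, ← h', Set.image_image]
  rfl

lemma inv_blocks {n : ℕ} {X : Type} {O : Fin n → Set X} {σ : Perm X} {b : Perm (Fin n)}
    (h : ∀ x, σ '' O x = O (b x)) (x : Fin n) : (σ⁻¹ : Perm X) '' O x = O (b⁻¹ x) := by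
  have h1 : O x = σ '' O (b⁻¹ x) := by
    rw [h]
    exact congrArg O (b.apply_symm_apply x).symm
  rw [h1, Set.image_image]
  have h2 : (fun y => (σ⁻¹ : Perm X) (σ y)) = id := funext (fun y => σ.symm_apply_apply y)
  rw [h2, Set.image_id]

lemma conj_blocks {n : ℕ} {X : Type} {O : Fin n → Set X} {σ τ : Perm X} {b c : Perm (Fin n)}
    (h : ∀ x, σ '' O x = O (b x)) (h' : ∀ x, τ '' O x = O (c x)) (x : Fin n) :
    (σ * τ * σ⁻¹) '' O x = O ((b * c * b⁻¹) x) :=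
  comp_blocks (comp_blocks h h') (inv_blocks h) x

theorem result : ∃ C : ℕ, ∀ n m : ℕ, 1 ≤ n → 1 ≤ m →
    ∀ (X₁ : Type) [Fintype X₁] (O₁ : Fin n → Set X₁), Fintype.card X₁ ≤ m →
    (∀ x, (O₁ x).Nonempty) → (∀ x y, x ≠ y → Disjoint (O₁ x) (O₁ y)) →
    ∃ (X : Type) (_ : Fintype X) (O : Fin n → Set X) (E : Finset (Perm X))
      (j d : Perm X₁ →* Perm X),
      Fintype.card X ≤ C * m ^ C ∧ E.card ≤ 3 ∧
      (∀ x, (O x).Nonempty) ∧ (∀ x y, x ≠ y → Disjoint (O x) (O y)) ∧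
      ∀ (K₁ L : Subgroup (Perm X₁)) (G : Subgroup (Perm (Fin n))) (K : Subgroup (Perm X)),
        (∀ κ ∈ K₁, ∃ g ∈ G, ∀ x, κ '' O₁ x = O₁ (g x)) →
        (∀ π ∈ Subgroup.normalizer (K₁ : Set (Perm X₁)), ∃ b : Perm (Fin n),
          ∀ x, π '' O₁ x = O₁ (b x)) →
        (G : Set (Perm (Fin n))) ⊆ induced O₁ K₁ →
        (∀ π, π ∈ L ↔ π ∈ Subgroup.normalizer (K₁ : Set (Perm X₁)) ∧
          ∃ g ∈ G, ∀ x, π '' O₁ x = O₁ (g x)) →
        K = Subgroup.closure ((E : Set (Perm X)) ∪ j '' (K₁ : Set (Perm X₁)) ∪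
          d '' (L : Set (Perm X₁))) →
        (∀ π ∈ Subgroup.normalizer (K : Set (Perm X)), ∃ b : Perm (Fin n),
          ∀ x, π '' O x = O (b x)) ∧
        induced O K = induced O₁ K₁ ∩ (Subgroup.normalizer (G : Set (Perm (Fin n))) :
          Set (Perm (Fin n))) := by
  classical
  obtain ⟨C, hC⟩ := Helper175_Flex.fbd_poly 1 3 1
  refine ⟨C, fun n m hn hm X₁ _ O₁ hX₁ hO₁ hO₁' => ?_⟩
  have hne₁ : Nonempty X₁ := ⟨(hO₁ ⟨0, hn⟩).some⟩
  obtain ⟨X, fX, hX, I, E, j, d, hE, hI1, hI2, hK⟩ := Helper175_Flex.pairThm X₁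
  let O : Fin n → Set X := fun x => ⋃ y ∈ O₁ x, I y
  have hO : ∀ x, (O x).Nonempty := by
    intro x
    obtain ⟨y, hy⟩ := hO₁ x
    obtain ⟨z, hz⟩ := hI1 y
    exact ⟨z, Set.mem_biUnion hy hz⟩
  have hO' : ∀ x y, x ≠ y → Disjoint (O x) (O y) := by
    intro x y hxy
    rw [Set.disjoint_left]
    intro z hz hz'
    obtain ⟨u, hu, huz⟩ := Set.mem_iUnion₂.mp hz
    obtain ⟨v, hv, hvz⟩ := Set.mem_iUnion₂.mp hz'
    have huv : u ≠ v := fun h => Set.disjoint_left.mp (hO₁' x y hxy) hu (h ▸ hv)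
    exact Set.disjoint_left.mp (hI2 u v huv) huz hvz
  refine ⟨X, fX, O, E, j, d, ?_, hE, hO, hO', ?_⟩
  · refine hX.trans (hC _ _ m hm ?_ ?_)
    · rw [pow_one]; omega
    · rw [pow_one]; omega
  intro K₁ L G K hK₁ hind hG hL hKdef
  have hKL : K₁ ≤ L := fun κ hκ => (hL κ).mpr ⟨Subgroup.le_normalizer hκ, hK₁ κ hκ⟩
  have hLN : L ≤ Subgroup.normalizer (K₁ : Set (Perm X₁)) := fun κ hκ => ((hL κ).mp hκ).1
  obtain ⟨h1, h2⟩ := hK K₁ L K hKL hLN hKdef
  have himg : ∀ {π : Perm X} {σ : Perm X₁} {b : Perm (Fin n)}, (∀ y, π '' I y = I (σ y)) →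
      (∀ x, σ '' O₁ x = O₁ (b x)) → ∀ x, π '' O x = O (b x) := by
    intro π σ b hπ hσ x
    change π '' (⋃ y ∈ O₁ x, I y) = ⋃ y ∈ O₁ (b x), I y
    rw [Set.image_iUnion₂, ← hσ, Set.biUnion_image]
    exact Set.iUnion₂_congr (fun y _ => hπ y)
  have hmain : ∀ π ∈ Subgroup.normalizer (K : Set (Perm X)), ∃ b ∈ induced O₁ K₁,
      b ∈ Subgroup.normalizer (G : Set (Perm (Fin n))) ∧ ∀ x, π '' O x = O (b x) := by
    intro π hπ
    obtain ⟨σ, hσ1, hσ2, hσ⟩ := h1 π hπ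
    obtain ⟨b, hb⟩ := hind σ hσ1
    refine ⟨b, ⟨σ, hσ1, hb⟩, ?_, himg hσ hb⟩
    apply Subgroup.mem_normalizer_fintype
    intro g hg
    obtain ⟨τ, hτ, hτg⟩ := hG hg
    have h3 : τ ∈ L := (hL τ).mpr ⟨hτ, g, hg, hτg⟩
    have h4 : σ * τ * σ⁻¹ ∈ L := Helper175_Flex.norm_conj hσ2 h3
    obtain ⟨-, g', hg', h5⟩ := (hL _).mp h4
    have h6 : b * g * b⁻¹ = g' :=
      blocks_inj hO₁ hO₁' (fun x => (conj_blocks hb hτg x).symm.trans (h5 x))
    rw [h6]
    exact hg'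
  constructor
  · intro π hπ
    obtain ⟨b, -, -, hb⟩ := hmain π hπ
    exact ⟨b, hb⟩
  · ext b
    constructor
    · rintro ⟨π, hπ, hb⟩
      obtain ⟨b', hb1, hb2, hb3⟩ := hmain π hπ
      have h3 : b = b' := blocks_inj hO hO' (fun x => (hb x).symm.trans (hb3 x))
      rw [h3]
      exact ⟨hb1, hb2⟩
    · rintro ⟨⟨σ, hσ, hσb⟩, hb⟩
      have h3 : σ ∈ Subgroup.normalizer (L : Set (Perm X₁)) := by
        apply Subgroup.mem_normalizer_fintype
        intro l hl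
        obtain ⟨hl1, g, hg, hlg⟩ := (hL l).mp hl
        refine (hL _).mpr ⟨?_, b * g * b⁻¹, Helper175_Flex.norm_conj hb hg,
          conj_blocks hσb hlg⟩
        exact Subgroup.mul_mem _ (Subgroup.mul_mem _ hσ hl1) (Subgroup.inv_mem _ hσ)
      obtain ⟨π, hπ, hπI⟩ := h2 σ hσ h3
      exact ⟨π, hπ, himg hπI hσb⟩

end Pool.Agent.Results.MP_e519cf_lc.NormaliserInduced
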